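import Mathlib
import Pool.Agent.Helper683.Lk.Set

set_option autoImplicit false
set_option maxHeartbeats 1000000

namespace Pool.Agent.N568.Lk

open Pool.Agent.Helper683.Lk Topology Filter

/-- The point `x` is far from the vertices of the polygon `b 0, ..., b L`. -/
def Far (L : ℕ) (b : ℕ → R3) (ρ : ℝ) (x : R3) : Prop := ∀ j ≤ L, 2 * ρ ≤ dist x (b j)

/-- crossings of one segment with a polygon -/
noncomputable def cs (L : ℕ) (b : ℕ → R3) (v x y : R3) : ℤ :=
  ∑ j ∈ Finset.range L, crossSign v x y (b j) (b (j + 1))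

theorem crossSum_cs (v : R3) (m : ℕ) (a : ℕ → R3) (L : ℕ) (b : ℕ → R3) :
    crossSum v m a L b = ∑ i ∈ Finset.range m, cs L b v (a i) (a (i + 1)) := rfl

theorem cs_neg (L : ℕ) (b : ℕ → R3) (v x y : R3) : cs L b v y x = - cs L b v x y := by
  unfold cs
  rw [← Finset.sum_neg_distrib]
  exact Finset.sum_congr rfl fun j _ => cs_swap12 _ _ _ _ _

theorem cs_self (L : ℕ) (b : ℕ → R3) (v x : R3) : cs L b v x x = 0 := by
  unfold cs
  exact Finset.sum_eq_zero fun j _ => cs_deg12 _ _ _ _

theorem abs_crossSign (v a b c d : R3) : |crossSign v a b c d| ≤ 1 := by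
  unfold crossSign
  split_ifs
  · rcases SignType.trichotomy (SignType.sign (det3 (b - a) (d - c) v)) with h | h | h <;> rw [h] <;> simp
  · simp

theorem abs_cs (L : ℕ) (b : ℕ → R3) (v x y : R3) : |cs L b v x y| ≤ L := by
  unfold cs
  refine (Finset.abs_sum_le_sum_abs _ _).trans ?_
  refine (Finset.sum_le_sum fun j _ => abs_crossSign v x y (b j) (b (j + 1))).trans ?_
  simp

section
variable {L : ℕ} {b : ℕ → R3} {ρ : ℝ}

/-- a direction that is regular for all short segments with vertices in a finite set -/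
theorem exists_v (hsb : ∀ j < L, dist (b (j + 1)) (b j) < ρ) (X : Finset R3) :
    ∃ v : R3, v ≠ 0 ∧ ∀ x ∈ X, ∀ y ∈ X, Far L b ρ x → dist y x < ρ → ∀ j < L,
      RegPair v x y (b j) (b (j + 1)) := by
  classical
  obtain ⟨v, hv, h⟩ := exists_dir
    (((X ×ˢ X) ×ˢ Finset.range L).filter fun t => Far L b ρ t.1.1 ∧ dist t.1.2 t.1.1 < ρ)
    (fun t => t.1.1) (fun t => t.1.2) (fun t => b t.2) (fun t => b (t.2 + 1)) (by
      rintro ⟨⟨x, y⟩, j⟩ ht
      rw [Finset.mem_filter, Finset.mem_product, Finset.mem_product, Finset.mem_range] at ht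
      obtain ⟨⟨_, hj⟩, h1, h2⟩ := ht
      exact seg_disjoint h2 (hsb j hj) (h1 j (le_of_lt hj)))
  refine ⟨v, hv, fun x hx y hy h1 h2 j hj => ?_⟩
  apply h ((x, y), j)
  rw [Finset.mem_filter, Finset.mem_product, Finset.mem_product, Finset.mem_range]
  exact ⟨⟨⟨hx, hy⟩, hj⟩, h1, h2⟩

theorem samp_id (a : ℕ → R3) (K : ℕ) (hρ : 0 < ρ) (h : ∀ i < K, dist (a (i + 1)) (a i) < ρ) :
    Samp a K (fun i => i) K ρ := by
  refine ⟨fun i j hij => hij, rfl, rfl, ?_⟩
  intro i hi j h1 h2
  try simp only at h1 h2 ⊢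
  rcases Nat.lt_or_ge i j with h3 | h3
  · have : j = i + 1 := by omega
    subst this
    exact h i hi
  · have : j = i := by omega
    subst this
    rw [dist_self]; exact hρ

/-- independence of the direction -/
theorem crossSum_dir (hb : b L = b 0) (hρ : 0 < ρ) (hsb : ∀ j < L, dist (b (j + 1)) (b j) < ρ)
    {m : ℕ} {a : ℕ → R3} (ha : a m = a 0) (hfar : ∀ i ≤ m, Far L b ρ (a i))
    (hsa : ∀ i < m, dist (a (i + 1)) (a i) < ρ) {v v' : R3} (hr : Regular v m a L b)
    (hr' : Regular v' m a L b) : crossSum v m a L b = crossSum v' m a L b :=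
  crossSum_inv (K := m) (L := L) (a := a) (b := b) ha hb (fun i hi j hj => hfar i hi j hj) hsa hρ
    (samp_id a m hρ hsa) (samp_id b L hρ hsb) (samp_id a m hρ hsa) (samp_id b L hρ hsb) hr hr'

/-- the crossing sum of a small triangle vanishes -/
theorem triangle (hb : b L = b 0) (hρ : 0 < ρ) (hsb : ∀ j < L, dist (b (j + 1)) (b j) < ρ)
    (hL : 0 < L) {x y z : R3} (hx : Far L b ρ x) (hy : Far L b ρ y) (hz : Far L b ρ z)
    (hxy : dist x y < ρ) (hyz : dist y z < ρ) (hxz : dist x z < ρ) {v : R3} (hv : v ≠ 0)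
    (hreg : ∀ p ∈ ({x, y, z} : Set R3), ∀ q ∈ ({x, y, z} : Set R3), ∀ j < L,
      RegPair v p q (b j) (b (j + 1))) :
    cs L b v x y + cs L b v y z + cs L b v z x = 0 := by
  let a : ℕ → R3 := fun i => if i = 1 then y else if i = 2 then z else x
  have a0 : a 0 = x := rfl
  have a1 : a 1 = y := rfl
  have a2 : a 2 = z := rfl
  have a3 : a 3 = x := rfl
  have hmem : ∀ i, a i ∈ ({x, y, z} : Set R3) := by
    intro i
    simp only [a]
    split_ifs <;> simp
  have hfar : ∀ p ∈ ({x, y, z} : Set R3), Far L b ρ p := by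
    rintro p (rfl | rfl | rfl)
    · exact hx
    · exact hy
    · exact hz
  have hsa : ∀ i < 3, dist (a (i + 1)) (a i) < ρ := by
    intro i hi
    interval_cases i
    · rw [a0, show a (0 + 1) = y from rfl, dist_comm]; exact hxy
    · rw [a1, show a (1 + 1) = z from rfl, dist_comm]; exact hyz
    · rw [a2, show a (2 + 1) = x from rfl]; exact hxz
  have hs' : Samp a 3 (fun i => if i = 0 then 0 else 3) 1 ρ := by
    refine ⟨?_, rfl, rfl, ?_⟩
    · intro i j hij
      simp only
      split_ifs <;> omega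
    · intro i hi j h1 h2
      have : i = 0 := by omega
      subst this
      simp only [zero_add, one_ne_zero, if_false, if_true] at h1 h2 ⊢
      interval_cases j
      · rw [dist_self]; exact hρ
      · rw [a0, a1, dist_comm]; exact hxy
      · rw [a0, a2, dist_comm]; exact hxz
      · rw [a0, a3, dist_self]; exact hρ
  have key := crossSum_inv (K := 3) (L := L) (a := a) (b := b) rfl hb
    (fun i _ j hj => hfar _ (hmem i) j hj) hsa hρ (samp_id a 3 hρ hsa) (samp_id b L hρ hsb)
    hs' (samp_id b L hρ hsb)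
    (regular_of (v := v) hv (by norm_num) hL fun i _ j hj => hreg _ (hmem _) _ (hmem _) j hj)
    (regular_of (v := v) hv (by norm_num) hL fun i _ j hj => hreg _ (hmem _) _ (hmem _) j hj)
  rw [crossSum_cs, crossSum_cs, Finset.sum_range_succ, Finset.sum_range_succ, Finset.sum_range_succ,
    Finset.sum_range_zero, Finset.sum_range_one] at key
  simp only [zero_add, if_true, one_ne_zero, if_false] at key
  rw [a0, a1, a3, show a (1 + 1) = z from rfl] at key
  exact key.trans (cs_self _ _ _ _)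

/-- A cocycle that computes the crossing sums with the closed polygon `b`. -/
theorem exists_cocycle (hL : 0 < L) (hb : b L = b 0) (hρ : 0 < ρ)
    (hsb : ∀ j < L, dist (b (j + 1)) (b j) < ρ) :
    ∃ n : R3 → R3 → ℤ, (∀ x y, n y x = - n x y) ∧
      (∀ x y z, Far L b ρ x → Far L b ρ y → Far L b ρ z → dist x y < ρ → dist y z < ρ →
        dist x z < ρ → n x y + n y z = n x z) ∧
      (∀ (m : ℕ) (a : ℕ → R3) (v : R3), a m = a 0 → (∀ i ≤ m, Far L b ρ (a i)) →
        (∀ i < m, dist (a (i + 1)) (a i) < ρ) → Regular v m a L b →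
        crossSum v m a L b = ∑ i ∈ Finset.range m, n (a i) (a (i + 1))) := by
  classical
  choose v hv hreg using exists_v (L := L) (b := b) (ρ := ρ) hsb
  let U : Ultrafilter (Finset R3) := Ultrafilter.of atTop
  have hU : (U : Filter (Finset R3)) ≤ atTop := Ultrafilter.of_le _
  have hmem : ∀ x : R3, ∀ᶠ X in (U : Filter (Finset R3)), x ∈ X := by
    intro x
    apply hU
    filter_upwards [eventually_ge_atTop ({x} : Finset R3)] with X hX
    exact hX (Finset.mem_singleton_self x)
  have hlim : ∀ x y : R3, ∃ k : ℤ, ∀ᶠ X in (U : Filter (Finset R3)), cs L b (v X) x y = k := by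
    intro x y
    have hfin : (Set.Icc (-(L : ℤ)) L).Finite := Set.finite_Icc _ _
    have h1 : ∀ᶠ X in (U : Filter (Finset R3)), ∃ k ∈ Set.Icc (-(L : ℤ)) L, cs L b (v X) x y = k := by
      apply Filter.Eventually.of_forall
      intro X
      exact ⟨_, abs_le.mp (abs_cs L b (v X) x y), rfl⟩
    obtain ⟨k, _, hk⟩ := (Ultrafilter.eventually_exists_mem_iff hfin).mp h1
    exact ⟨k, hk⟩
  choose n hn using hlim
  refine ⟨n, ?_, ?_, ?_⟩
  · intro x y
    obtain ⟨X, h1, h2⟩ := ((hn x y).and (hn y x)).exists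
    rw [← h1, ← h2]
    exact cs_neg _ _ _ _ _
  · intro x y z hx hy hz hxy hyz hxz
    obtain ⟨X, h1, h2, h3, h4, m1, m2, m3⟩ := ((hn x y).and ((hn y z).and ((hn z x).and ((hn x z).and
      ((hmem x).and ((hmem y).and (hmem z))))))).exists
    have hin : ∀ p ∈ ({x, y, z} : Set R3), p ∈ X ∧ Far L b ρ p := by
      rintro p (rfl | rfl | rfl)
      · exact ⟨m1, hx⟩
      · exact ⟨m2, hy⟩
      · exact ⟨m3, hz⟩
    have hd : ∀ p ∈ ({x, y, z} : Set R3), ∀ q ∈ ({x, y, z} : Set R3), dist q p < ρ := by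
      have hyx : dist y x < ρ := by rw [dist_comm]; exact hxy
      have hzy : dist z y < ρ := by rw [dist_comm]; exact hyz
      have hzx : dist z x < ρ := by rw [dist_comm]; exact hxz
      have hs : ∀ p : R3, dist p p < ρ := fun p => by rw [dist_self]; exact hρ
      rintro p (rfl | rfl | rfl) q (rfl | rfl | rfl) <;> first | assumption | exact hs _
    have key := triangle hb hρ hsb hL hx hy hz hxy hyz hxz (hv X) (fun p hp q hq j hj =>
      hreg X p (hin p hp).1 q (hin q hq).1 (hin p hp).2 (hd p hp q hq) j hj)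
    have h5 : cs L b (v X) z x = - cs L b (v X) x z := cs_neg _ _ _ _ _
    rw [h5, h1, h2, h4] at key
    linarith
  · intro m a w ha hfar hsa hr
    rcases Nat.eq_zero_or_pos m with h0 | hm
    · subst h0
      rw [crossSum_cs]
      simp
    have h1 : ∀ᶠ X in (U : Filter (Finset R3)), ∀ i ∈ Finset.range m,
        cs L b (v X) (a i) (a (i + 1)) = n (a i) (a (i + 1)) := by
      rw [Filter.eventually_all_finset]
      intro i _
      exact hn _ _
    have h2 : ∀ᶠ X in (U : Filter (Finset R3)), ∀ i ∈ Finset.range (m + 1), a i ∈ X := by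
      rw [Filter.eventually_all_finset]
      intro i _
      exact hmem _
    obtain ⟨X, h3, h4⟩ := (h1.and h2).exists
    rw [crossSum_dir hb hρ hsb ha hfar hsa hr (v' := v X)
      (regular_of (hv X) hm hL fun i hi j hj => hreg X _ (h4 i (by simp; omega)) _
        (h4 (i + 1) (by simp; omega)) (hfar i hi.le) (hsa i hi) j hj), crossSum_cs]
    exact Finset.sum_congr rfl h3

end

end Pool.Agent.N568.Lk
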