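import Mathlib

set_option autoImplicit false
set_option maxHeartbeats 1000000

namespace Pool.Agent.N568.Lk

open Topology Filter

/-- a cocycle at scale `δ` on the set `C` -/
def IsCoc {X : Type*} [PseudoMetricSpace X] (C : Set X) (δ : ℝ) (n : X → X → ℤ) : Prop :=
  ∀ x ∈ C, ∀ y ∈ C, ∀ z ∈ C, dist x y < δ → dist y z < δ → dist x z < δ → n x y + n y z = n x z

section
variable {X : Type*} [PseudoMetricSpace X] {C : Set X} {δ : ℝ} {n : X → X → ℤ}

theorem IsCoc.self (h : IsCoc C δ n) (hδ : 0 < δ) {x : X} (hx : x ∈ C) : n x x = 0 := by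
  have := h x hx x hx x hx (by rw [dist_self]; exact hδ) (by rw [dist_self]; exact hδ)
    (by rw [dist_self]; exact hδ)
  linarith

theorem IsCoc.neg (h : IsCoc C δ n) {x y : X} (hx : x ∈ C) (hy : y ∈ C) (hxy : dist x y < δ) :
    n y x = - n x y := by
  have hδ : 0 < δ := lt_of_le_of_lt dist_nonneg hxy
  have := h x hx y hy x hx hxy (by rw [dist_comm]; exact hxy) (by rw [dist_self]; exact hδ)
  rw [h.self hδ hx] at this
  linarith

theorem IsCoc.quad (h : IsCoc C δ n) {m : ℕ} {a a' : ℕ → X} (ha : ∀ i ≤ m, a i ∈ C)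
    (ha' : ∀ i ≤ m, a' i ∈ C) (h1 : ∀ i < m, dist (a i) (a (i + 1)) < δ)
    (h2 : ∀ i < m, dist (a' i) (a' (i + 1)) < δ) (h3 : ∀ i ≤ m, dist (a i) (a' i) < δ)
    (h4 : ∀ i < m, dist (a i) (a' (i + 1)) < δ) :
    ∑ i ∈ Finset.range m, n (a i) (a (i + 1)) + n (a m) (a' m) =
      n (a 0) (a' 0) + ∑ i ∈ Finset.range m, n (a' i) (a' (i + 1)) := by
  induction m with
  | zero => simp
  | succ m ih =>
    have ih' := ih (fun i hi => ha i (by omega)) (fun i hi => ha' i (by omega))
      (fun i hi => h1 i (by omega)) (fun i hi => h2 i (by omega)) (fun i hi => h3 i (by omega))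
      (fun i hi => h4 i (by omega))
    rw [Finset.sum_range_succ, Finset.sum_range_succ]
    have e1 := h (a m) (ha m (by omega)) (a (m + 1)) (ha _ le_rfl) (a' (m + 1)) (ha' _ le_rfl)
      (h1 m (by omega)) (h3 _ le_rfl) (h4 m (by omega))
    have e2 := h (a m) (ha m (by omega)) (a' m) (ha' m (by omega)) (a' (m + 1)) (ha' _ le_rfl)
      (h3 m (by omega)) (h2 m (by omega)) (h4 m (by omega))
    linarith

end

section
variable {X : Type*} [NormedAddCommGroup X] [NormedSpace ℝ X] {C : Set X} {δ : ℝ} {n : X → X → ℤ}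

theorem dist_lineMap_step (x p : X) (s t : ℝ) :
    dist (AffineMap.lineMap x p s) (AffineMap.lineMap x p t) = |s - t| * dist x p := by
  rw [dist_lineMap_lineMap, Real.dist_eq]

theorem dist_lineMap_le (x y p : X) {t : ℝ} (h0 : 0 ≤ t) (h1 : t ≤ 1) :
    dist (AffineMap.lineMap x p t) (AffineMap.lineMap y p t) ≤ dist x y := by
  rw [dist_eq_norm, AffineMap.lineMap_apply_module, AffineMap.lineMap_apply_module]
  have : (1 - t) • x + t • p - ((1 - t) • y + t • p) = (1 - t) • (x - y) := by module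
  rw [this, norm_smul, Real.norm_eq_abs, abs_of_nonneg (by linarith), dist_eq_norm]
  have := norm_nonneg (x - y)
  nlinarith

/-- the sum of a cocycle along a closed polygon with short edges in a convex set is zero -/
theorem IsCoc.closed (h : IsCoc C δ n) (hC : Convex ℝ C) {m : ℕ} {a : ℕ → X} (hm : a m = a 0)
    (ha : ∀ i ≤ m, a i ∈ C) (h1 : ∀ i < m, dist (a i) (a (i + 1)) < δ / 2) :
    ∑ i ∈ Finset.range m, n (a i) (a (i + 1)) = 0 := by
  rcases Nat.eq_zero_or_pos m with h0 | h0
  · subst h0; simp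
  have hδ : 0 < δ := by
    have := lt_of_le_of_lt dist_nonneg (h1 0 h0)
    linarith
  obtain ⟨R, hR⟩ : ∃ R : ℝ, ∀ i ∈ Finset.range (m + 1), dist (a i) (a 0) ≤ R := by
    refine ⟨∑ i ∈ Finset.range (m + 1), dist (a i) (a 0), fun i hi => ?_⟩
    exact Finset.single_le_sum (f := fun i => dist (a i) (a 0)) (fun _ _ => dist_nonneg) hi
  obtain ⟨K, hK⟩ := exists_nat_gt (R / (δ / 2))
  have hR0 : 0 ≤ R := le_trans dist_nonneg (hR 0 (by simp))
  have hK0 : (0 : ℝ) < K := lt_of_le_of_lt (by positivity) hK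
  rw [div_lt_iff₀ (by positivity)] at hK
  let A : ℕ → ℕ → X := fun k i => AffineMap.lineMap (a i) (a 0) ((k : ℝ) / K)
  have hA0 : ∀ i, A 0 i = a i := by intro i; simp [A]
  have hAK : ∀ i, A K i = a 0 := by
    intro i
    simp only [A]
    rw [div_self hK0.ne']
    simp
  have hfrac : ∀ k ≤ K, 0 ≤ (k : ℝ) / K ∧ (k : ℝ) / K ≤ 1 := by
    intro k hk
    refine ⟨by positivity, ?_⟩
    rw [div_le_one hK0]
    exact_mod_cast hk
  have hAC : ∀ k ≤ K, ∀ i ≤ m, A k i ∈ C := by
    intro k hk i hi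
    exact hC.segment_subset (ha i hi) (ha 0 (by omega)) (by
      rw [segment_eq_image_lineMap]
      exact ⟨(k : ℝ) / K, hfrac k hk, rfl⟩)
  have hstep : ∀ k ≤ K, ∀ i < m, dist (A k i) (A k (i + 1)) < δ / 2 := by
    intro k hk i hi
    exact lt_of_le_of_lt (dist_lineMap_le _ _ _ (hfrac k hk).1 (hfrac k hk).2) (h1 i hi)
  have hver : ∀ k, ∀ i ≤ m, dist (A k i) (A (k + 1) i) < δ / 2 := by
    intro k i hi
    simp only [A]
    rw [dist_lineMap_step]
    have : |(k : ℝ) / K - ((k + 1 : ℕ) : ℝ) / K| = 1 / K := by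
      rw [← sub_div, abs_div, abs_of_pos hK0]
      congr 1
      push_cast
      rw [show (k : ℝ) - (k + 1) = -1 by ring, abs_neg, abs_one]
    rw [this]
    have hr := hR i (by simp; omega)
    rw [one_div, inv_mul_lt_iff₀ hK0]
    calc dist (a i) (a 0) ≤ R := hr
      _ < K * (δ / 2) := hK
  have hclosed : ∀ k, A k m = A k 0 := by intro k; simp only [A]; rw [hm]
  have hkey : ∀ k ≤ K, ∑ i ∈ Finset.range m, n (A k i) (A k (i + 1)) =
      ∑ i ∈ Finset.range m, n (A 0 i) (A 0 (i + 1)) := by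
    intro k
    induction k with
    | zero => intro _; rfl
    | succ k ih =>
      intro hk
      rw [← ih (by omega)]
      have q := h.quad (m := m) (a := A k) (a' := A (k + 1)) (hAC k (by omega)) (hAC (k + 1) hk)
        (fun i hi => by have := hstep k (by omega) i hi; linarith)
        (fun i hi => by have := hstep (k + 1) hk i hi; linarith)
        (fun i hi => by have := hver k i hi; linarith)
        (fun i hi => by
          have e1 := hstep k (by omega) i hi
          have e2 := hver k (i + 1) (by omega)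
          have := dist_triangle (A k i) (A k (i + 1)) (A (k + 1) (i + 1))
          linarith)
      rw [hclosed k, hclosed (k + 1)] at q
      linarith
  have h2 := hkey K le_rfl
  have h3 : ∑ i ∈ Finset.range m, n (A K i) (A K (i + 1)) = 0 := by
    apply Finset.sum_eq_zero
    intro i _
    rw [hAK, hAK]
    exact h.self hδ (ha 0 (by omega))
  rw [h3] at h2
  rw [h2]
  apply Finset.sum_congr rfl
  intro i _
  rw [hA0, hA0]

/-- a cocycle on a convex set has a primitive -/
theorem IsCoc.primitive (h : IsCoc C δ n) (hC : Convex ℝ C) (hδ : 0 < δ) :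
    ∃ s : X → ℤ, ∀ x ∈ C, ∀ y ∈ C, dist x y < δ / 2 → n x y = s y - s x := by
  by_cases hne : C.Nonempty
  swap
  · exact ⟨fun _ => 0, fun x hx => absurd ⟨x, hx⟩ hne⟩
  obtain ⟨p, hp⟩ := hne
  have hK : ∀ x : X, ∃ K : ℕ, 0 < K ∧ dist p x < K * (δ / 2) := by
    intro x
    obtain ⟨K, hK⟩ := exists_nat_gt (dist p x / (δ / 2))
    refine ⟨K, ?_, ?_⟩
    · have : (0 : ℝ) < K := lt_of_le_of_lt (by positivity) hK
      exact_mod_cast this
    · rwa [div_lt_iff₀ (by positivity)] at hK
  choose K hK0 hK using hK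
  let g : X → ℕ → X := fun x i => AffineMap.lineMap p x ((i : ℝ) / K x)
  have g0 : ∀ x, g x 0 = p := by intro x; simp [g]
  have gK : ∀ x, g x (K x) = x := by
    intro x
    simp only [g]
    rw [div_self (by exact_mod_cast (hK0 x).ne')]
    simp
  have gC : ∀ x ∈ C, ∀ i ≤ K x, g x i ∈ C := by
    intro x hx i hi
    apply hC.segment_subset hp hx
    rw [segment_eq_image_lineMap]
    refine ⟨(i : ℝ) / K x, ⟨by positivity, ?_⟩, rfl⟩
    rw [div_le_one (by exact_mod_cast hK0 x)]
    exact_mod_cast hi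
  have gs : ∀ x i, dist (g x i) (g x (i + 1)) < δ / 2 := by
    intro x i
    simp only [g]
    rw [dist_lineMap_step]
    have hx : (0 : ℝ) < K x := by exact_mod_cast hK0 x
    have : |(i : ℝ) / K x - ((i + 1 : ℕ) : ℝ) / K x| = 1 / K x := by
      rw [← sub_div, abs_div, abs_of_pos hx]
      congr 1
      push_cast
      rw [show (i : ℝ) - (i + 1) = -1 by ring, abs_neg, abs_one]
    rw [this, one_div, inv_mul_lt_iff₀ hx]
    exact hK x
  refine ⟨fun x => ∑ i ∈ Finset.range (K x), n (g x i) (g x (i + 1)), ?_⟩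
  intro x hx y hy hxy
  simp only
  let a : ℕ → X := fun i => if i ≤ K x then g x i else g y (K y - (i - (K x + 1)))
  have a1 : ∀ i ≤ K x, a i = g x i := fun i hi => if_pos hi
  have a2 : ∀ i, a (K x + 1 + i) = g y (K y - i) := by
    intro i
    simp only [a]
    rw [if_neg (by omega)]
    congr 1
    omega
  have key := h.closed (a := a) (m := K x + 1 + K y) hC (by
      rw [a2, Nat.sub_self, a1 0 (by omega), g0, g0])
    (by
      intro i hi
      by_cases h' : i ≤ K x
      · rw [a1 i h']; exact gC x hx i h'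
      · obtain ⟨j, rfl⟩ : ∃ j, i = K x + 1 + j := ⟨i - (K x + 1), by omega⟩
        rw [a2]; exact gC y hy _ (by omega))
    (by
      intro i hi
      rcases lt_trichotomy i (K x) with h' | h' | h'
      · rw [a1 i h'.le, a1 (i + 1) h']; exact gs x i
      · subst h'
        rw [a1 _ le_rfl, show K x + 1 = K x + 1 + 0 from rfl, a2, Nat.sub_zero, gK, gK]
        exact hxy
      · obtain ⟨j, rfl⟩ : ∃ j, i = K x + 1 + j := ⟨i - (K x + 1), by omega⟩
        rw [a2, show K x + 1 + j + 1 = K x + 1 + (j + 1) from rfl, a2, dist_comm]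
        have := gs y (K y - (j + 1))
        rwa [show K y - (j + 1) + 1 = K y - j by omega] at this)
  rw [Finset.sum_range_add, Finset.sum_range_succ] at key
  have e1 : ∑ i ∈ Finset.range (K x), n (a i) (a (i + 1)) =
      ∑ i ∈ Finset.range (K x), n (g x i) (g x (i + 1)) := by
    apply Finset.sum_congr rfl
    intro i hi
    rw [Finset.mem_range] at hi
    rw [a1 i hi.le, a1 (i + 1) hi]
  have e2 : n (a (K x)) (a (K x + 1)) = n x y := by
    rw [a1 _ le_rfl, show K x + 1 = K x + 1 + 0 from rfl, a2, Nat.sub_zero, gK, gK]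
  have e3 : ∑ i ∈ Finset.range (K y), n (a (K x + 1 + i)) (a (K x + 1 + i + 1)) =
      - ∑ i ∈ Finset.range (K y), n (g y i) (g y (i + 1)) := by
    rw [← Finset.sum_range_reflect (fun i => n (g y i) (g y (i + 1))), ← Finset.sum_neg_distrib]
    apply Finset.sum_congr rfl
    intro i hi
    rw [Finset.mem_range] at hi
    rw [a2, show K x + 1 + i + 1 = K x + 1 + (i + 1) from rfl, a2,
      show K y - 1 - i + 1 = K y - i by omega, show K y - 1 - i = K y - (i + 1) by omega]
    apply h.neg (gC y hy _ (by omega)) (gC y hy _ (by omega))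
    have := gs y (K y - (i + 1))
    rw [show K y - (i + 1) + 1 = K y - i by omega] at this
    linarith
  rw [e1, e2, e3] at key
  linarith

end

end Pool.Agent.N568.Lk
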