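import Mathlib
import Pool.Agent.N568.Lk.Contract

set_option autoImplicit false
set_option maxHeartbeats 1000000

namespace Pool.Agent.N568.Lk

open Topology Filter

/-- Euclidean three-space. -/
abbrev R3' := EuclideanSpace ℝ (Fin 3)

/-- the third basis vector -/
noncomputable def e3 : R3' := EuclideanSpace.single 2 1

theorem norm_sq3 (x : R3') : ‖x‖ ^ 2 = x 0 ^ 2 + x 1 ^ 2 + x 2 ^ 2 := by
  rw [EuclideanSpace.norm_sq_eq, Fin.sum_univ_three]
  simp

/-- projection to the plane `z = 0` -/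
noncomputable def prj (x : R3') : R3' := x - x 2 • e3

@[simp] theorem e3_0 : e3 0 = 0 := by simp [e3]
@[simp] theorem e3_1 : e3 1 = 0 := by simp [e3]
@[simp] theorem e3_2 : e3 2 = 1 := by simp [e3]
@[simp] theorem prj_0 (x : R3') : prj x 0 = x 0 := by simp [prj]
@[simp] theorem prj_1 (x : R3') : prj x 1 = x 1 := by simp [prj]
@[simp] theorem prj_2 (x : R3') : prj x 2 = 0 := by simp [prj]

theorem norm_prj_le (x : R3') : ‖prj x‖ ≤ ‖x‖ := by
  apply le_of_sq_le_sq _ (norm_nonneg _)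
  rw [norm_sq3, norm_sq3]
  simp
  nlinarith [sq_nonneg (x 2)]

theorem prj_sub (x y : R3') : prj x - prj y = prj (x - y) := by
  unfold prj
  rw [PiLp.sub_apply]
  module

theorem dist_prj_le (x y : R3') : dist (prj x) (prj y) ≤ dist x y := by
  rw [dist_eq_norm, dist_eq_norm, prj_sub]
  exact norm_prj_le _

/-- the unit disc in the plane `z = 0` -/
def Dsc : Set R3' := {x | x 2 = 0 ∧ ‖x‖ ≤ 1}

theorem convex_Dsc : Convex ℝ Dsc := by
  intro x hx y hy a b ha hb hab
  refine ⟨?_, ?_⟩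
  · simp [hx.1, hy.1]
  · have h1 : x ∈ Metric.closedBall (0 : R3') 1 := by simpa using hx.2
    have h2 : y ∈ Metric.closedBall (0 : R3') 1 := by simpa using hy.2
    have h3 := convex_closedBall (0 : R3') 1 h1 h2 ha hb hab
    simpa using h3

theorem compact_Dsc : IsCompact Dsc := by
  apply Metric.isCompact_of_isClosed_isBounded
  · apply IsClosed.inter
    · exact isClosed_eq (by fun_prop) continuous_const
    · exact isClosed_le continuous_norm continuous_const
  · apply Metric.isBounded_closedBall (x := (0 : R3')) (r := 1) |>.subset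
    intro x hx
    simpa using hx.2

/-- the lift to the hemisphere -/
noncomputable def hem (σ : ℝ) (u : R3') : R3' := u + (σ * Real.sqrt (1 - ‖u‖ ^ 2)) • e3

theorem continuous_hem (σ : ℝ) : Continuous (hem σ) := by
  unfold hem
  fun_prop

theorem hem_mem {σ : ℝ} (hσ : σ ^ 2 = 1) {u : R3'} (hu : u ∈ Dsc) : ‖hem σ u‖ = 1 := by
  have h1 : ‖u‖ ^ 2 ≤ 1 := by nlinarith [hu.2, norm_nonneg u]
  have : ‖hem σ u‖ ^ 2 = 1 := by
    rw [norm_sq3]
    simp only [hem, PiLp.add_apply, PiLp.smul_apply, e3_0, e3_1, e3_2, hu.1, smul_eq_mul, mul_zero,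
      mul_one, add_zero, zero_add]
    rw [mul_pow, hσ, Real.sq_sqrt (by linarith), norm_sq3, hu.1]
    ring
  nlinarith [norm_nonneg (hem σ u)]

theorem hem_prj {σ : ℝ} (hσ : σ ^ 2 = 1) {x : R3'} (hx : ‖x‖ = 1) (hs : 0 ≤ σ * x 2) :
    hem σ (prj x) = x := by
  have h1 : 1 - ‖prj x‖ ^ 2 = (σ * x 2) ^ 2 := by
    have := norm_sq3 x
    rw [hx] at this
    rw [norm_sq3, mul_pow, hσ]
    simp
    linarith
  unfold hem
  rw [h1, Real.sqrt_sq hs, ← mul_assoc, ← sq, hσ, one_mul]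
  unfold prj
  module

theorem prj_mem {x : R3'} (hx : ‖x‖ = 1) : prj x ∈ Dsc :=
  ⟨prj_2 x, by rw [← hx]; exact norm_prj_le x⟩

/-- primitives on the hemispheres -/
theorem hemi {η : ℝ} (hη : 0 < η) {N : R3' → R3' → ℤ} (hN : IsCoc {x : R3' | ‖x‖ = 1} η N) {σ : ℝ}
    (hσ : σ ^ 2 = 1) : ∃ s : R3' → ℤ, ∃ ε > 0, ∀ x y : R3', ‖x‖ = 1 → ‖y‖ = 1 → 0 ≤ σ * x 2 →
      0 ≤ σ * y 2 → dist x y < ε → N x y = s y - s x := by
  have huc := compact_Dsc.uniformContinuousOn_of_continuous (continuous_hem σ).continuousOn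
  obtain ⟨ε, hε, h⟩ := Metric.uniformContinuousOn_iff.mp huc η hη
  have hc : IsCoc Dsc ε (fun u w => N (hem σ u) (hem σ w)) := by
    intro x hx y hy z hz h1 h2 h3
    exact hN _ (hem_mem hσ hx) _ (hem_mem hσ hy) _ (hem_mem hσ hz) (h x hx y hy h1) (h y hy z hz h2)
      (h x hx z hz h3)
  obtain ⟨s, hs⟩ := hc.primitive convex_Dsc hε
  refine ⟨fun x => s (prj x), ε / 2, by positivity, ?_⟩
  intro x y hx hy h1 h2 hd
  have := hs (prj x) (prj_mem hx) (prj y) (prj_mem hy) (lt_of_le_of_lt (dist_prj_le x y) hd)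
  rwa [hem_prj hσ hx h1, hem_prj hσ hy h2] at this

/-- the equator -/
noncomputable def eqt (θ : ℝ) : R3' := !₂[Real.cos θ, Real.sin θ, 0]

theorem eqt_cont : Continuous eqt := by
  unfold eqt
  apply (PiLp.continuous_toLp 2 _).comp
  apply continuous_pi
  intro i
  fin_cases i
  · exact Real.continuous_cos
  · exact Real.continuous_sin
  · exact continuous_const

theorem eqt_mem (θ : ℝ) : ‖eqt θ‖ = 1 ∧ eqt θ 2 = 0 := by
  refine ⟨?_, by simp [eqt]⟩
  have : ‖eqt θ‖ ^ 2 = 1 := by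
    rw [norm_sq3]
    simp [eqt]
  nlinarith [norm_nonneg (eqt θ)]

theorem exists_eqt {x : R3'} (h : ‖x‖ = 1) (h2 : x 2 = 0) : ∃ θ, eqt θ = x := by
  have h3 := norm_sq3 x
  rw [h, h2] at h3
  let z : ℂ := ⟨x 0, x 1⟩
  have hz : ‖z‖ = 1 := by
    have : ‖z‖ ^ 2 = 1 := by
      rw [← Complex.normSq_eq_norm_sq, Complex.normSq_apply]
      simp only [z]
      linarith
    nlinarith [norm_nonneg z]
  have hz0 : z ≠ 0 := by
    intro h0
    rw [h0, norm_zero] at hz
    norm_num at hz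
  refine ⟨Complex.arg z, ?_⟩
  have e1 := Complex.cos_arg hz0
  have e2 := Complex.sin_arg z
  rw [hz, div_one] at e1 e2
  ext i
  fin_cases i
  · simp only [eqt]; simpa using e1
  · simp only [eqt]; simpa using e2
  · simp only [eqt]; simpa using h2.symm

/-- two functions on the equator with the same small differences differ by a constant -/
theorem eq_const {s t : R3' → ℤ} {ε : ℝ} (hε : 0 < ε) (h : ∀ x y : R3', ‖x‖ = 1 → ‖y‖ = 1 → x 2 = 0 →
    y 2 = 0 → dist x y < ε → s y - s x = t y - t x) : ∃ c : ℤ, ∀ x : R3', ‖x‖ = 1 → x 2 = 0 →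
      s x - t x = c := by
  refine ⟨s (eqt 0) - t (eqt 0), ?_⟩
  have hl : IsLocallyConstant (fun θ : ℝ => s (eqt θ) - t (eqt θ)) := by
    rw [IsLocallyConstant.iff_eventually_eq]
    intro θ
    have := (eqt_cont.tendsto θ).eventually (Metric.ball_mem_nhds (eqt θ) hε)
    filter_upwards [this] with φ hφ
    have hφ : dist (eqt φ) (eqt θ) < ε := hφ
    have := h (eqt θ) (eqt φ) (eqt_mem θ).1 (eqt_mem φ).1 (eqt_mem θ).2 (eqt_mem φ).2
      (by rw [dist_comm]; exact hφ)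
    linarith
  intro x hx hx2
  obtain ⟨θ, rfl⟩ := exists_eqt hx hx2
  exact hl.apply_eq_of_preconnectedSpace θ 0

/-- a point on the equator near a short segment that crosses the plane of the equator -/
theorem near_eqt {x y : R3'} (hx : ‖x‖ = 1) (hy : ‖y‖ = 1) (hx2 : 0 ≤ x 2) (hy2 : y 2 < 0)
    (hd : dist x y < 1 / 2) : ∃ r : R3', ‖r‖ = 1 ∧ r 2 = 0 ∧ dist x r ≤ 2 * dist x y ∧
      dist r y ≤ 2 * dist x y := by
  have hp : 0 < x 2 - y 2 := by linarith
  set t : ℝ := x 2 / (x 2 - y 2) with ht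
  have ht0 : 0 ≤ t := by positivity
  have ht1 : t ≤ 1 := by rw [ht, div_le_one hp]; linarith
  set w : R3' := AffineMap.lineMap x y t with hw
  have hw2 : w 2 = 0 := by
    rw [hw, AffineMap.lineMap_apply_module]
    simp only [PiLp.add_apply, PiLp.smul_apply, smul_eq_mul]
    rw [ht]
    field_simp
    ring
  have d1 : dist x w ≤ dist x y := by
    rw [hw, dist_left_lineMap, Real.norm_eq_abs, abs_of_nonneg ht0]
    nlinarith [dist_nonneg (x := x) (y := y)]
  have d2 : dist w y ≤ dist x y := by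
    rw [hw, dist_lineMap_right, Real.norm_eq_abs, abs_of_nonneg (by linarith)]
    nlinarith [dist_nonneg (x := x) (y := y)]
  have n1 : |‖w‖ - 1| ≤ dist x y := by
    rw [← hx]
    refine (abs_norm_sub_norm_le w x).trans ?_
    rw [← dist_eq_norm, dist_comm]
    exact d1
  have hw0 : 0 < ‖w‖ := by
    have := abs_le.mp n1
    linarith
  refine ⟨‖w‖⁻¹ • w, ?_, ?_, ?_, ?_⟩
  · rw [norm_smul, norm_inv, norm_norm, inv_mul_cancel₀ hw0.ne']
  · rw [PiLp.smul_apply, hw2, smul_zero]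
  all_goals
    have dr : dist w (‖w‖⁻¹ • w) ≤ dist x y := by
      rw [dist_eq_norm]
      have : w - ‖w‖⁻¹ • w = (1 - ‖w‖⁻¹) • w := by module
      rw [this, norm_smul, Real.norm_eq_abs]
      have e : |1 - ‖w‖⁻¹| * ‖w‖ = |‖w‖ - 1| := by
        rw [← abs_of_pos hw0, ← abs_mul, abs_of_pos hw0]
        congr 1
        field_simp
      rw [e]; exact n1
  · have := dist_triangle x w (‖w‖⁻¹ • w)
    linarith
  · have := dist_triangle (‖w‖⁻¹ • w) w y
    rw [dist_comm (‖w‖⁻¹ • w) w] at this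
    linarith

/-- a cocycle on the sphere has a primitive -/
theorem sphere_primitive {η : ℝ} (hη : 0 < η) {N : R3' → R3' → ℤ}
    (hN : IsCoc {x : R3' | ‖x‖ = 1} η N) :
    ∃ s : R3' → ℤ, ∃ ε > 0, ∀ x y : R3', ‖x‖ = 1 → ‖y‖ = 1 → dist x y < ε → N x y = s y - s x := by
  obtain ⟨s, ε, hε, hs⟩ := hemi hη hN (σ := 1) (by norm_num)
  obtain ⟨t, ε', hε', ht⟩ := hemi hη hN (σ := -1) (by norm_num)
  obtain ⟨c, hc⟩ := eq_const (s := s) (t := t) (ε := min ε ε') (lt_min hε hε') (by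
    intro x y hx hy hx2 hy2 hd
    rw [← hs x y hx hy (by rw [hx2]; simp) (by rw [hy2]; simp) (lt_of_lt_of_le hd (min_le_left _ _)),
      ← ht x y hx hy (by rw [hx2]; simp) (by rw [hy2]; simp) (lt_of_lt_of_le hd (min_le_right _ _))])
  let S : R3' → ℤ := fun x => if 0 ≤ x 2 then s x else t x + c
  have Sp : ∀ x : R3', 0 ≤ x 2 → S x = s x := fun x hx => if_pos hx
  have Sm : ∀ x : R3', x 2 < 0 → S x = t x + c := fun x hx => if_neg (by linarith)
  refine ⟨S, min (min (ε / 2) (ε' / 2)) (min (1 / 2) (η / 2)), by positivity, ?_⟩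
  have mixed : ∀ x y : R3', ‖x‖ = 1 → ‖y‖ = 1 → 0 ≤ x 2 → y 2 < 0 →
      dist x y < min (min (ε / 2) (ε' / 2)) (min (1 / 2) (η / 2)) → N x y = S y - S x := by
    intro x y hx hy hx2 hy2 hd
    rw [lt_min_iff, lt_min_iff, lt_min_iff] at hd
    obtain ⟨⟨hd1, hd2⟩, hd3, hd4⟩ := hd
    obtain ⟨r, hr, hr2, hr3, hr4⟩ := near_eqt hx hy hx2 hy2 hd3
    have e1 := hs x r hx hr (by linarith) (by rw [hr2]; simp) (by linarith)
    have e2 := ht r y hr hy (by rw [hr2]; simp) (by linarith) (by linarith)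
    have e3 := hN x hx r hr y hy (by linarith) (by linarith) (by linarith)
    have e4 := hc r hr hr2
    rw [Sp x hx2, Sm y hy2]
    linarith
  intro x y hx hy hd
  rcases le_or_gt 0 (x 2) with hx2 | hx2 <;> rcases le_or_gt 0 (y 2) with hy2 | hy2
  · rw [Sp x hx2, Sp y hy2]
    rw [lt_min_iff, lt_min_iff, lt_min_iff] at hd
    exact hs x y hx hy (by linarith) (by linarith) (by linarith)
  · exact mixed x y hx hy hx2 hy2 hd
  · have := mixed y x hy hx hy2 hx2 (by rw [dist_comm]; exact hd)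
    rw [lt_min_iff, lt_min_iff, lt_min_iff] at hd
    have h2 := hN.neg (x := x) (y := y) hx hy (by linarith)
    linarith
  · rw [Sm x hx2, Sm y hy2]
    rw [lt_min_iff, lt_min_iff, lt_min_iff] at hd
    have := ht x y hx hy (by linarith) (by linarith) (by linarith)
    linarith

end Pool.Agent.N568.Lk
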