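import Mathlib
import Pool.Agent.N568.Lk.Cocycle
import Pool.Agent.N568.Lk.Sphere

set_option autoImplicit false
set_option maxHeartbeats 1000000

namespace Pool.Agent.N568.Lk

open Pool.Agent.Helper683.Lk Topology Filter

/-- a segment from a point of an open set to a point outside meets the frontier -/
theorem exists_frontier {U : Set R3} (hU : IsOpen U) {x z : R3} (hx : x ∈ U) (hz : z ∉ U) :
    ∃ w ∈ frontier U, dist x w ≤ dist x z ∧ dist w z ≤ dist x z := by
  have hc : IsPreconnected (segment ℝ x z) := (convex_segment x z).isPreconnected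
  obtain ⟨w, hw1, hw2⟩ : ∃ w, w ∈ segment ℝ x z ∧ w ∈ frontier U := by
    by_contra hcon
    push Not at hcon
    have hz' : z ∉ closure U := by
      intro h
      apply hcon z (right_mem_segment ℝ _ _)
      rw [hU.frontier_eq]
      exact ⟨h, hz⟩
    obtain ⟨w, _, h1, h2⟩ := hc U (closure U)ᶜ hU isClosed_closure.isOpen_compl (by
      intro w hw
      by_cases h : w ∈ U
      · exact Or.inl h
      · right
        intro h'
        apply hcon w hw
        rw [hU.frontier_eq]
        exact ⟨h', h⟩) ⟨x, left_mem_segment ℝ _ _, hx⟩ ⟨z, right_mem_segment ℝ _ _, hz'⟩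
    exact h2 (subset_closure h1)
  refine ⟨w, hw2, ?_, ?_⟩
  · have := dist_add_dist_of_mem_segment hw1
    have h0 := dist_nonneg (x := w) (y := z)
    linarith
  · have := dist_add_dist_of_mem_segment hw1
    have h0 := dist_nonneg (x := x) (y := w)
    linarith

theorem isPreconnected_range_path {x y : R3} (γ : Path x y) : IsPreconnected (Set.range γ) :=
  isPreconnected_range γ.continuous

theorem frontier_component {O : Set R3} (hO : IsOpen O) (x : R3) :
    frontier (connectedComponentIn O x) ⊆ Oᶜ := by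
  intro z hz hzO
  have hU : IsOpen (connectedComponentIn O x) := hO.connectedComponentIn
  have hV : IsOpen (connectedComponentIn O z) := hO.connectedComponentIn
  rw [hU.frontier_eq] at hz
  obtain ⟨w, hw1, hw2⟩ := mem_closure_iff.mp hz.1 _ hV (mem_connectedComponentIn hzO)
  have e1 := connectedComponentIn_eq hw1
  have e2 := connectedComponentIn_eq hw2
  apply hz.2
  rw [e2, ← e1]
  exact mem_connectedComponentIn hzO

/-- Two closed curves in different components of the complement of an embedded sphere have linking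
number zero. -/
theorem separated {x y : R3} {γ : Path x x} {δ : Path y y} {k : ℤ} (hk : IsLinkingNumber γ δ k)
    (g : Metric.sphere (0 : R3) 1 → R3) (hg : Continuous g) (hinj : Function.Injective g)
    (hγ : Disjoint (Set.range γ) (Set.range g)) (hδ : Disjoint (Set.range δ) (Set.range g))
    (hcomp : connectedComponentIn (Set.range g)ᶜ x ≠ connectedComponentIn (Set.range g)ᶜ y) :
    k = 0 := by
  classical
  have hx : x ∈ Set.range γ := ⟨0, γ.source⟩
  have hy : y ∈ Set.range δ := ⟨0, δ.source⟩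
  set S : Set R3 := Set.range g with hS
  have hSc : IsCompact S := isCompact_range hg
  have hO : IsOpen Sᶜ := hSc.isClosed.isOpen_compl
  set U : Set R3 := connectedComponentIn Sᶜ x with hU
  have hxS : x ∈ Sᶜ := fun h => Set.disjoint_left.mp hγ hx h
  have hyS : y ∈ Sᶜ := fun h => Set.disjoint_left.mp hδ hy h
  have hUo : IsOpen U := hO.connectedComponentIn
  have hγU : Set.range γ ⊆ U := (isPreconnected_range_path γ).subset_connectedComponentIn hx
    (fun p hp h => Set.disjoint_left.mp hγ hp h)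
  have hδU : ∀ t, δ t ∉ U := by
    intro t ht
    apply hcomp
    have h1 : Set.range δ ⊆ connectedComponentIn Sᶜ y :=
      (isPreconnected_range_path δ).subset_connectedComponentIn hy
        (fun p hp h => Set.disjoint_left.mp hδ hp h)
    have e1 := connectedComponentIn_eq ht
    have e2 := connectedComponentIn_eq (h1 ⟨t, rfl⟩)
    exact e1.trans e2.symm
  have hfr : frontier U ⊆ S := by
    have := frontier_component hO x
    rwa [compl_compl] at this
  -- distance from δ to S
  have hne : S.Nonempty := by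
    have : Nonempty (Metric.sphere (0 : R3) 1) := by
      refine ⟨⟨e3, ?_⟩⟩
      rw [mem_sphere_zero_iff_norm]
      simp [e3]
    exact Set.range_nonempty g
  obtain ⟨D0, hD0, hD⟩ : ∃ D0 > 0, ∀ p ∈ S, ∀ t, D0 ≤ dist p (δ t) := by
    have hδc : IsCompact (Set.range δ) := isCompact_range δ.continuous
    obtain ⟨r, hr, h⟩ := Metric.exists_pos_forall_lt_edist hSc hδc.isClosed
      (Set.disjoint_left.mpr fun p h1 h2 => Set.disjoint_left.mp hδ h2 h1)
    refine ⟨r, by exact_mod_cast hr, fun p hp t => ?_⟩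
    have := h p hp (δ t) ⟨t, rfl⟩
    rw [edist_nndist, ENNReal.coe_lt_coe] at this
    have h2 : (r : ℝ) < dist p (δ t) := by
      rw [← coe_nndist]; exact_mod_cast this
    exact h2.le
  have hDU : ∀ p ∈ U, ∀ t, D0 ≤ dist p (δ t) := by
    intro p hp t
    obtain ⟨w, hw, _, h2⟩ := exists_frontier hUo hp (hδU t)
    exact (hD w (hfr hw) t).trans h2
  set ρ : ℝ := D0 / 4 with hρ
  have hρ0 : 0 < ρ := by positivity
  obtain ⟨N₀, hN₀⟩ := hk
  obtain ⟨N, hN1, hN2, hN3⟩ := ((ev_Mod δ hρ0).and ((Filter.eventually_gt_atTop 0).and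
    (Filter.eventually_ge_atTop N₀))).exists
  set b : ℕ → R3 := inscribed δ N with hb
  have hbc : b N = b 0 := by rw [hb, insc_zero, insc_last _ hN2]
  have hsb : ∀ j < N, dist (b (j + 1)) (b j) < ρ := fun j _ => hN1.step hN2 le_rfl j
  have hbδ : ∀ j, ∃ t, b j = δ t := by
    intro j
    have : δ.extend ((j : ℝ) / N) ∈ Set.range δ := by rw [← Path.extend_range]; exact ⟨_, rfl⟩
    obtain ⟨t, ht⟩ := this
    exact ⟨t, ht.symm⟩
  obtain ⟨n, n1, n2, n3⟩ := exists_cocycle hN2 hbc hρ0 hsb
  have farU : ∀ p ∈ U, Far N b ρ p := by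
    intro p hp j _
    obtain ⟨t, ht⟩ := hbδ j
    rw [ht]
    have := hDU p hp t
    linarith
  have farS : ∀ p ∈ S, ∀ q, dist p q < ρ → Far N b ρ q := by
    intro p hp q hq j _
    obtain ⟨t, ht⟩ := hbδ j
    rw [ht]
    have h1 := hD p hp t
    have h2 := dist_triangle p q (δ t)
    linarith
  -- the sphere
  let G : R3 → R3 := fun p => if h : ‖p‖ = 1 then g ⟨p, by rwa [mem_sphere_zero_iff_norm]⟩ else 0
  have hG : ∀ p : R3, ∀ h : ‖p‖ = 1, G p = g ⟨p, by rwa [mem_sphere_zero_iff_norm]⟩ :=
    fun p h => dif_pos h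
  have hGS : ∀ p : R3, ‖p‖ = 1 → G p ∈ S := fun p h => by rw [hG p h]; exact ⟨_, rfl⟩
  have hguc : UniformContinuous g := CompactSpace.uniformContinuous_of_continuous hg
  obtain ⟨η, hη, hgu⟩ := Metric.uniformContinuous_iff.mp hguc ρ hρ0
  have hGu : ∀ p q : R3, ‖p‖ = 1 → ‖q‖ = 1 → dist p q < η → dist (G p) (G q) < ρ := by
    intro p q hp hq hpq
    rw [hG p hp, hG q hq]
    exact hgu (by rw [Subtype.dist_eq]; exact hpq)
  have hco : IsCoc {p : R3' | ‖p‖ = 1} η (fun p q => n (G p) (G q)) := by
    intro p hp q hq r hr h1 h2 h3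
    have self : ∀ p : R3, dist p p < ρ := fun p => by rw [dist_self]; exact hρ0
    exact n2 _ _ _ (farS _ (hGS p hp) _ (self _)) (farS _ (hGS q hq) _ (self _))
      (farS _ (hGS r hr) _ (self _)) (hGu p q hp hq h1) (hGu q r hq hr h2) (hGu p r hp hr h3)
  obtain ⟨s', ε, hε, hs'⟩ := sphere_primitive hη hco
  obtain ⟨θ, hθ, hinv⟩ : ∃ θ > 0, ∀ p q : R3, ‖p‖ = 1 → ‖q‖ = 1 → dist (G p) (G q) < θ →
      dist p q < ε := by
    obtain ⟨θ, hθ, h⟩ : ∃ θ > 0, ∀ p q : Metric.sphere (0 : R3) 1, dist (g p) (g q) < θ →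
        dist p q < ε := by
      let K : Set (Metric.sphere (0 : R3) 1 × Metric.sphere (0 : R3) 1) := {z | ε ≤ dist z.1 z.2}
      have hK : IsCompact K := (isClosed_le continuous_const (by fun_prop)).isCompact
      have hF : Continuous fun z : Metric.sphere (0 : R3) 1 × Metric.sphere (0 : R3) 1 =>
          dist (g z.1) (g z.2) := by fun_prop
      rcases K.eq_empty_or_nonempty with h0 | h0
      · refine ⟨1, one_pos, fun p q _ => ?_⟩
        by_contra hcon
        have : (p, q) ∈ K := not_lt.mp hcon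
        rw [h0] at this
        exact this
      · obtain ⟨z, hz, hmin⟩ := hK.exists_isMinOn h0 hF.continuousOn
        refine ⟨dist (g z.1) (g z.2), ?_, fun p q hpq => ?_⟩
        · apply dist_pos.mpr
          intro he
          have := hinj he
          have hz' : ε ≤ dist z.1 z.2 := hz
          rw [this, dist_self] at hz'
          linarith
        · by_contra hcon
          have := isMinOn_iff.mp hmin (p, q) (not_lt.mp hcon)
          simp only at this
          linarith
    refine ⟨θ, hθ, fun p q hp hq hpq => ?_⟩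
    rw [hG p hp, hG q hq] at hpq
    have := h _ _ hpq
    rwa [Subtype.dist_eq] at this
  set κ : ℝ := min ρ θ / 3 with hκ
  have hκ0 : 0 < κ := by have := lt_min hρ0 hθ; positivity
  have hκρ : 3 * κ ≤ ρ := by rw [hκ]; have := min_le_left ρ θ; linarith
  have hκθ : 3 * κ ≤ θ := by rw [hκ]; have := min_le_right ρ θ; linarith
  let near : R3 → Prop := fun x => ∃ p : R3, ‖p‖ = 1 ∧ dist x (G p) < κ
  let s : R3 → ℤ := fun x => if h : near x then s' h.choose + n (G h.choose) x else 0
  have hnear : ∀ w ∈ S, ∀ x : R3, dist x w < κ → near x := by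
    rintro w ⟨⟨p, hp⟩, rfl⟩ x hx
    rw [mem_sphere_zero_iff_norm] at hp
    exact ⟨p, hp, by rw [hG p hp]; exact hx⟩
  have hs : ∀ x y : R3, near x → near y → dist x y < κ → n x y = s y - s x := by
    intro x y hx hy hxy
    obtain ⟨p1, p2⟩ := hx.choose_spec
    obtain ⟨q1, q2⟩ := hy.choose_spec
    simp only [s, dif_pos hx, dif_pos hy]
    set p := hx.choose
    set q := hy.choose
    have d1 : dist (G p) (G q) < 3 * κ := by
      have h1 := dist_triangle (G p) x (G q)
      have h2 := dist_triangle x y (G q)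
      rw [dist_comm (G p) x] at h1
      linarith
    have d2 : dist x (G q) < 2 * κ := by
      have h2 := dist_triangle x y (G q)
      linarith
    have h1 := hs' p q p1 q1 (hinv p q p1 q1 (by linarith))
    have fx : Far N b ρ x := farS _ (hGS p p1) _ (by rw [dist_comm]; linarith)
    have fy : Far N b ρ y := farS _ (hGS q q1) _ (by rw [dist_comm]; linarith)
    have fp : Far N b ρ (G p) := farS _ (hGS p p1) _ (by rw [dist_self]; exact hρ0)
    have fq : Far N b ρ (G q) := farS _ (hGS q q1) _ (by rw [dist_self]; exact hρ0)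
    have c1 := n2 x y (G q) fx fy fq (by linarith) (by linarith) (by linarith)
    have c2 := n2 x (G p) (G q) fx fp fq (by linarith) (by linarith) (by linarith)
    have a1 := n1 x (G p)
    have a2 := n1 y (G q)
    linarith
  let m : R3 → R3 → ℤ := fun x y => if x ∈ U ∧ y ∈ U then n x y else s y - s x
  have hm1 : ∀ x y, x ∈ U → y ∈ U → m x y = n x y := fun x y hx hy => if_pos ⟨hx, hy⟩
  have hm2 : ∀ x y, ¬ (x ∈ U ∧ y ∈ U) → m x y = s y - s x := fun x y h => if_neg h
  have hm3 : ∀ x y z : R3, z ∉ U → dist x y < κ → dist x z < κ → dist y z < κ →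
      m x y = s y - s x := by
    intro x y z hz hxy hxz hyz
    by_cases h : x ∈ U ∧ y ∈ U
    · rw [hm1 x y h.1 h.2]
      obtain ⟨w, hw, hw1, _⟩ := exists_frontier hUo h.1 hz
      obtain ⟨w', hw', hw1', _⟩ := exists_frontier hUo h.2 hz
      exact hs x y (hnear w (hfr hw) x (by linarith)) (hnear w' (hfr hw') y (by linarith)) hxy
    · exact hm2 x y h
  have hmc : IsCoc Set.univ κ m := by
    intro p _ q _ r _ h1 h2 h3
    have self : ∀ p : R3, dist p p < κ := fun p => by rw [dist_self]; exact hκ0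
    by_cases hall : p ∈ U ∧ q ∈ U ∧ r ∈ U
    · obtain ⟨hp, hq, hr⟩ := hall
      rw [hm1 p q hp hq, hm1 q r hq hr, hm1 p r hp hr]
      exact n2 p q r (farU p hp) (farU q hq) (farU r hr) (by linarith) (by linarith) (by linarith)
    · obtain ⟨z, hz, z1, z2, z3⟩ : ∃ z, z ∉ U ∧ dist p z < κ ∧ dist q z < κ ∧ dist r z < κ := by
        by_cases hp : p ∈ U
        · by_cases hq : q ∈ U
          · have hr : r ∉ U := fun hr => hall ⟨hp, hq, hr⟩
            exact ⟨r, hr, h3, h2, self r⟩
          · exact ⟨q, hq, h1, self q, by rw [dist_comm]; exact h2⟩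
        · exact ⟨p, hp, self p, by rw [dist_comm]; exact h1, by rw [dist_comm]; exact h3⟩
      rw [hm3 p q z hz h1 z1 z2, hm3 q r z hz h2 z2 z3, hm3 p r z hz h3 z1 z3]
      ring
  obtain ⟨M, hM1, hM2, hM3⟩ := ((ev_Mod γ (show (0:ℝ) < κ / 2 by positivity)).and
    ((Filter.eventually_gt_atTop 0).and (Filter.eventually_ge_atTop N₀))).exists
  set a : ℕ → R3 := inscribed γ M with ha
  have hac : a M = a 0 := by rw [ha, insc_zero, insc_last _ hM2]
  have haU : ∀ i, a i ∈ U := by
    intro i
    apply hγU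
    rw [← Path.extend_range]; exact ⟨_, rfl⟩
  have hsa : ∀ i, dist (a (i + 1)) (a i) < κ / 2 := fun i => hM1.step hM2 le_rfl i
  obtain ⟨⟨v, hv⟩, hk'⟩ := hN₀ M hM3 N hN3
  rw [← hk' v hv, n3 M a v hac (fun i _ => farU _ (haU i)) (fun i _ => by
    have := hsa i
    linarith) hv]
  rw [← hmc.closed convex_univ hac (fun _ _ => Set.mem_univ _) (fun i _ => by
    rw [dist_comm]; exact hsa i)]
  exact Finset.sum_congr rfl fun i _ => (hm1 _ _ (haU i) (haU (i + 1))).symm

end Pool.Agent.N568.Lk
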